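import Pool.Agent.V5helper15.IK.MAX

/-!
# Project IK, job CRI: the covariance at the maximum
-/

set_option autoImplicit false

namespace Pool.Agent.V5helper15.IK

open MeasureTheory Set Filter Topology
open scoped ENNReal InnerProductSpace
open Pool.Agent.V5helper78.IK

/-- the map `x ↦ x + s ⟪e, x⟫ e` -/
noncomputable def Rk {n : ℕ} (e : E n) (s : ℝ) : E n →L[ℝ] E n :=
  ContinuousLinearMap.id ℝ (E n) + (innerSL ℝ e).smulRight (s • e)

lemma Rk_apply {n : ℕ} (e : E n) (s : ℝ) (x : E n) : Rk e s x = x + ⟪e, x⟫_ℝ • (s • e) := by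
  simp [Rk]

lemma Rk_det {n : ℕ} (e : E n) (s : ℝ) (he : ‖e‖ = 1) : (Rk e s).det = 1 + s := by
  have h1 : ((Rk e s : E n →L[ℝ] E n) : E n →ₗ[ℝ] E n) =
      LinearMap.transvection ((innerSL ℝ e : E n →L[ℝ] ℝ) : E n →ₗ[ℝ] ℝ) (s • e) := by
    ext x : 1
    change Rk e s x = LinearMap.transvection _ (s • e) x
    rw [LinearMap.transvection.apply, Rk_apply]
    rfl
  rw [ContinuousLinearMap.det, h1, LinearMap.transvection.det]
  congr 1
  change ⟪e, s • e⟫_ℝ = s
  rw [inner_smul_right, real_inner_self_eq_norm_sq, he]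
  ring

lemma Rk_norm {n : ℕ} (e : E n) (s : ℝ) (he : ‖e‖ = 1) (x : E n) :
    ‖Rk e s x‖ ^ 2 = ‖x‖ ^ 2 + (2 * s + s ^ 2) * ⟪x, e⟫_ℝ ^ 2 := by
  rw [Rk_apply, norm_add_sq_real, inner_smul_right, inner_smul_right, norm_smul, norm_smul, he,
    real_inner_comm x e, mul_one, mul_pow, Real.norm_eq_abs, Real.norm_eq_abs, sq_abs, sq_abs]
  ring

theorem t_CRI (hI : S_INT) : S_CRI := by
  intro n g ε A hg hε hM e he
  have hF := F_pos hI hg A
  set I : ℝ := ∫ x, ⟪A x, e⟫_ℝ ^ 2 * Real.exp (-(En g A x)) with hIdef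
  set q : ℝ := I / F g A with hq
  have hIq : I = q * F g A := by rw [hq, div_mul_cancel₀ _ hF.ne']
  have hi0 : Integrable (fun x => Real.exp (-(En g A x))) := by
    have h1 := hI n g A 0 hg
    simpa only [pow_zero, one_mul] using h1
  have hi2 : Integrable (fun x => ⟪A x, e⟫_ℝ ^ 2 * Real.exp (-(En g A x))) := by
    refine ((hI n g A 2 hg).const_mul (‖A‖ ^ 2)).mono' ?_ ?_
    · have hc : Continuous fun x => ⟪A x, e⟫_ℝ ^ 2 * Real.exp (-(En g A x)) := by
        have hgc := hg.cont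
        unfold En
        fun_prop
      exact hc.aestronglyMeasurable
    · refine Filter.Eventually.of_forall fun x => ?_
      rw [Real.norm_eq_abs, abs_of_nonneg (mul_nonneg (sq_nonneg _) (Real.exp_pos _).le),
        ← mul_assoc, ← mul_pow]
      refine mul_le_mul_of_nonneg_right ?_ (Real.exp_pos _).le
      rw [← sq_abs]
      refine pow_le_pow_left₀ (abs_nonneg _) ?_ 2
      calc |⟪A x, e⟫_ℝ| ≤ ‖A x‖ * ‖e‖ := abs_real_inner_le_norm _ _
        _ = ‖A x‖ := by rw [he, mul_one]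
        _ ≤ ‖A‖ * ‖x‖ := A.le_opNorm x
  -- the comparison
  have key : ∀ s : ℝ, -1 < s → ε * Real.log (1 + s) ≤ (2 * s + s ^ 2) * q := by
    intro s hs
    have hs' : 0 < 1 + s := by linarith
    set κ : ℝ := 2 * s + s ^ 2 with hκ
    have hEn : ∀ x, En g ((Rk e s).comp A) x = En g A x + κ * ⟪A x, e⟫_ℝ ^ 2 := by
      intro x
      unfold En
      rw [ContinuousLinearMap.comp_apply, Rk_norm e s he]
      ring
    have hlow : Real.exp (-(κ * q)) * F g A ≤ F g ((Rk e s).comp A) := by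
      have h1 : ∫ x, (Real.exp (-(κ * q)) * (1 + κ * q)) * Real.exp (-(En g A x)) -
          (Real.exp (-(κ * q)) * κ) * (⟪A x, e⟫_ℝ ^ 2 * Real.exp (-(En g A x))) ≤
          F g ((Rk e s).comp A) := by
        refine integral_mono ((hi0.const_mul _).sub (hi2.const_mul _)) ?_ fun x => ?_
        · have h1 := hI n g ((Rk e s).comp A) 0 hg
          simpa only [pow_zero, one_mul] using h1
        · simp only
          rw [hEn]
          have h2 : -(En g A x + κ * ⟪A x, e⟫_ℝ ^ 2) = (κ * q - κ * ⟪A x, e⟫_ℝ ^ 2) + (-(κ * q)) +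
              (-(En g A x)) := by ring
          rw [h2, Real.exp_add, Real.exp_add]
          have h3 := Real.add_one_le_exp (κ * q - κ * ⟪A x, e⟫_ℝ ^ 2)
          have h4 : 0 < Real.exp (-(κ * q)) * Real.exp (-(En g A x)) := by positivity
          nlinarith [mul_le_mul_of_nonneg_right h3 h4.le]
      rw [integral_sub (hi0.const_mul _) (hi2.const_mul _), integral_const_mul,
        integral_const_mul] at h1
      have h5 : ∫ x, Real.exp (-(En g A x)) = F g A := rfl
      rw [h5, ← hIdef, hIq] at h1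
      calc Real.exp (-(κ * q)) * F g A =
          Real.exp (-(κ * q)) * (1 + κ * q) * F g A - Real.exp (-(κ * q)) * κ * (q * F g A) := by
            ring
        _ ≤ _ := h1
    have hdet : ((Rk e s).comp A).det = (1 + s) * A.det := by
      have h1 : ((Rk e s).comp A).det = (Rk e s).det * A.det := by
        change LinearMap.det (((Rk e s : E n →L[ℝ] E n) : E n →ₗ[ℝ] E n) ∘ₗ
          (A : E n →ₗ[ℝ] E n)) = _
        exact LinearMap.det_comp _ _
      rw [h1, Rk_det e s he]
    have hmx := hM.max ((Rk e s).comp A)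
    rw [hdet, abs_mul, abs_of_pos hs', Real.mul_rpow hs'.le (abs_nonneg _)] at hmx
    have hA : 0 < |A.det| ^ ε := Real.rpow_pos_of_pos (abs_pos.2 hM.det) _
    have h6 : Real.exp (-(κ * q)) * (1 + s) ^ ε ≤ 1 := by
      have h7 : (Real.exp (-(κ * q)) * (1 + s) ^ ε) * (F g A * |A.det| ^ ε) ≤
          1 * (F g A * |A.det| ^ ε) := by
        calc (Real.exp (-(κ * q)) * (1 + s) ^ ε) * (F g A * |A.det| ^ ε) =
            (Real.exp (-(κ * q)) * F g A) * ((1 + s) ^ ε * |A.det| ^ ε) := by ring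
          _ ≤ F g ((Rk e s).comp A) * ((1 + s) ^ ε * |A.det| ^ ε) :=
            mul_le_mul_of_nonneg_right hlow (by positivity)
          _ ≤ 1 * (F g A * |A.det| ^ ε) := by rw [one_mul]; exact hmx
      exact le_of_mul_le_mul_right h7 (mul_pos hF hA)
    rw [Real.rpow_def_of_pos hs', ← Real.exp_add] at h6
    have h8 := Real.exp_le_one_iff.1 h6
    linarith
  -- the derivative at `0`
  have hder : HasDerivAt (fun s : ℝ => (2 * s + s ^ 2) * q - ε * Real.log (1 + s)) (2 * q - ε) 0 := by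
    have h1 : HasDerivAt (fun s : ℝ => (2 * s + s ^ 2) * q) (2 * q) 0 := by
      exact ((((hasDerivAt_id' (0 : ℝ)).const_mul 2).add
        (hasDerivAt_pow 2 (0 : ℝ))).mul_const q).congr_deriv (by norm_num)
    have h2 : HasDerivAt (fun s : ℝ => ε * Real.log (1 + s)) ε 0 := by
      have h3 : HasDerivAt (fun s : ℝ => 1 + s) 1 0 := (hasDerivAt_id (0 : ℝ)).const_add 1
      exact ((h3.log (by norm_num)).const_mul ε).congr_deriv (by norm_num)
    exact h1.sub h2
  have hmin : IsLocalMin (fun s : ℝ => (2 * s + s ^ 2) * q - ε * Real.log (1 + s)) 0 := by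
    have h1 : ∀ᶠ s : ℝ in 𝓝 0, -1 < s := eventually_gt_nhds (by norm_num)
    filter_upwards [h1] with s hs
    have := key s hs
    simp only [mul_zero, ne_eq, OfNat.ofNat_ne_zero, not_false_eq_true, zero_pow, add_zero,
      zero_mul, Real.log_one, sub_zero]
    linarith
  have h9 := hmin.hasDerivAt_eq_zero hder
  have h10 : q = ε / 2 := by linarith
  rw [hIq, h10]

end Pool.Agent.V5helper15.IK
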