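import Pool.Agent.V5helper78.IK.Stm

/-!
# Project IK, job MAX: existence of the maximiser
-/

set_option autoImplicit false

namespace Pool.Agent.V5helper15.IK

open MeasureTheory Set Filter Topology
open scoped ENNReal InnerProductSpace
open Pool.Agent.V5helper78.IK

/-- `F g A` is positive -/
lemma F_pos (hI : S_INT) {n : ℕ} {g : E n → ℝ} (hg : Nm g) (A : E n →L[ℝ] E n) : 0 < F g A := by
  have h1 := hI n g A 0 hg
  simp only [pow_zero, one_mul] at h1
  exact integral_exp_pos h1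

theorem t_MAX (hI : S_INT) (h1 : S_CON) (h2 : S_DET) (h3 : S_DEC) : S_MAX := by
  intro n g ε hg hε hε1
  set Φ : (E n →L[ℝ] E n) → ℝ := fun A => F g A * |A.det| ^ ε with hΦ
  have hcont : Continuous Φ := by
    refine (h1 n g hg).mul ?_
    exact (ContinuousLinearMap.continuous_det.abs).rpow_const fun _ => Or.inr hε.le
  have hM : 0 < Φ (ContinuousLinearMap.id ℝ (E n)) := by
    simp only [hΦ]
    have : (ContinuousLinearMap.id ℝ (E n)).det = 1 := by
      simp [ContinuousLinearMap.det]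
    rw [this, abs_one, Real.one_rpow, mul_one]
    exact F_pos hI hg _
  set M := Φ (ContinuousLinearMap.id ℝ (E n)) with hMdef
  set P : ℝ := (Real.pi ^ ((n : ℝ) / 2)) ^ ε with hP
  have hP0 : 0 < P := by positivity
  have hε' : 0 < 1 - ε := by linarith
  -- the bound
  have hbd : ∀ A, Φ A ≤ F g A ^ (1 - ε) * P := by
    intro A
    have hF := F_pos hI hg A
    have e1 : Φ A = F g A ^ (1 - ε) * (|A.det| * F g A) ^ ε := by
      simp only [hΦ]
      rw [Real.mul_rpow (abs_nonneg _) hF.le, mul_comm (|A.det| ^ ε), ← mul_assoc,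
        ← Real.rpow_add hF]
      congr 1
      rw [sub_add_cancel, Real.rpow_one]
    rw [e1, hP]
    refine mul_le_mul_of_nonneg_left ?_ (Real.rpow_nonneg hF.le _)
    exact Real.rpow_le_rpow (mul_nonneg (abs_nonneg _) hF.le) (h2 n g A hg) hε.le
  obtain ⟨R, hR⟩ := h3 n g hg ((M / P) ^ (1 - ε)⁻¹) (Real.rpow_pos_of_pos (div_pos hM hP0) _)
  have hout : ∀ A : E n →L[ℝ] E n, R ≤ ‖A‖ → Φ A ≤ M := by
    intro A hA
    refine (hbd A).trans ?_
    have hF := F_pos hI hg A
    have e2 : F g A ^ (1 - ε) ≤ M / P := by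
      calc F g A ^ (1 - ε) ≤ ((M / P) ^ (1 - ε)⁻¹) ^ (1 - ε) :=
            Real.rpow_le_rpow hF.le (hR A hA) hε'.le
        _ = M / P := by
            rw [← Real.rpow_mul (div_pos hM hP0).le, inv_mul_cancel₀ hε'.ne', Real.rpow_one]
    calc F g A ^ (1 - ε) * P ≤ M / P * P := mul_le_mul_of_nonneg_right e2 hP0.le
      _ = M := div_mul_cancel₀ _ hP0.ne'
  have hfin : FiniteDimensional ℝ (E n →L[ℝ] E n) := inferInstance
  have hprop : ProperSpace (E n →L[ℝ] E n) := FiniteDimensional.proper ℝ _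
  set ρ : ℝ := max R ‖ContinuousLinearMap.id ℝ (E n)‖ with hρ
  have hid : ContinuousLinearMap.id ℝ (E n) ∈ Metric.closedBall (0 : E n →L[ℝ] E n) ρ := by
    rw [mem_closedBall_zero_iff]
    exact le_max_right _ _
  obtain ⟨A₀, hA₀, hmax⟩ := (isCompact_closedBall (0 : E n →L[ℝ] E n) ρ).exists_isMaxOn
    ⟨_, hid⟩ hcont.continuousOn
  have hA₀M : M ≤ Φ A₀ := hmax hid
  refine ⟨A₀, ?_, fun A' => ?_⟩
  · intro h0
    have : Φ A₀ = 0 := by
      simp only [hΦ]
      rw [h0, abs_zero, Real.zero_rpow hε.ne', mul_zero]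
    linarith
  · change Φ A' ≤ Φ A₀
    by_cases h : A' ∈ Metric.closedBall (0 : E n →L[ℝ] E n) ρ
    · exact hmax h
    · rw [mem_closedBall_zero_iff, not_le] at h
      exact (hout A' ((le_max_left _ _).trans h.le)).trans hA₀M

end Pool.Agent.V5helper15.IK
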